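import Mathlib
import Pool.Agent.W890.SF.All
import Pool.Agent.W890.SF.R2

/-!
# The Erdős matching conjecture for `n ≥ (r + 39/40) (k - 1)`, `n` large
-/

set_option autoImplicit false

namespace Pool.Agent.Results.MP_1aab60_co.LinearRange

/-- For every `r ≥ 2` there is `n0` such that for all `n ≥ n0` and all `k ≥ 1` with
`(r + 39/40) (k - 1) ≤ n`: the largest number of edges of an `r`-uniform hypergraph on `n` vertices
without `k` pairwise disjoint edges is `max (C(rk-1, r)) (C(n, r) - C(n-k+1, r))`, the larger of the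
two terms being the second one. (`rk - 1 ≤ n` holds in this range.) -/
theorem result (r : ℕ) (hr : 2 ≤ r) :
    ∃ n0 : ℕ, ∀ n : ℕ, n0 ≤ n → ∀ k : ℕ, 1 ≤ k → (40 * r + 39) * (k - 1) ≤ 40 * n →
      r * k - 1 ≤ n ∧ (r * k - 1).choose r ≤ n.choose r - (n - k + 1).choose r ∧
      (∀ F : Finset (Finset (Fin n)),
          (∀ e ∈ F, e.card = r) →
          (¬ ∃ M : Finset (Finset (Fin n)), M ⊆ F ∧ M.card = k ∧
              ∀ a ∈ M, ∀ b ∈ M, a ≠ b → Disjoint a b) →
          F.card ≤ max (Nat.choose (r * k - 1) r)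
                       (Nat.choose n r - Nat.choose (n - k + 1) r)) ∧
      (∃ F : Finset (Finset (Fin n)),
          (∀ e ∈ F, e.card = r) ∧
          (¬ ∃ M : Finset (Finset (Fin n)), M ⊆ F ∧ M.card = k ∧
              ∀ a ∈ M, ∀ b ∈ M, a ≠ b → Disjoint a b) ∧
          F.card = max (Nat.choose (r * k - 1) r)
                       (Nat.choose n r - Nat.choose (n - k + 1) r)) :=
  Pool.Agent.W890.SF.R2.form2 Pool.Agent.W890.SF.t_EMC Pool.Agent.W890.SF.t_LOW r hr

end Pool.Agent.Results.MP_1aab60_co.LinearRange
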